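import Pool.Agent.W890.SF.Stm2

set_option autoImplicit false

namespace Pool.Agent.W804.SAM

open Finset Pool.Agent.W890.SF

theorem mem_le {n k s : ℕ} (F : Finset (Finset (Fin n))) (h1 : ∀ A ∈ F, A.card = k)
    (h2 : ∀ M : Finset (Finset (Fin n)), M ⊆ F →
      (M : Set (Finset (Fin n))).PairwiseDisjoint id → M.card ≤ s) : F.card ≤ mm n k s := by
  unfold mm
  refine le_csSup ⟨Fintype.card (Finset (Fin n)), ?_⟩ ⟨F, rfl, h1, h2⟩
  rintro c ⟨G, rfl, -, -⟩
  exact G.card_le_univ

/-- disjoint sets, each meeting `S` in at least `m` points -/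
theorem count {n : ℕ} (M : Finset (Finset (Fin n))) (S : Finset (Fin n)) (m : ℕ)
    (hd : (M : Set (Finset (Fin n))).PairwiseDisjoint id) (h : ∀ A ∈ M, m ≤ (A ∩ S).card) :
    M.card * m ≤ S.card := by
  have h1 : (M.biUnion (fun A => A ∩ S)).card = ∑ A ∈ M, (A ∩ S).card := by
    refine Finset.card_biUnion ?_
    intro A hA B hB hAB
    have h2 := hd hA hB hAB
    exact Finset.disjoint_of_subset_left inter_subset_left
      (Finset.disjoint_of_subset_right inter_subset_left h2)
  have h2 : (M.biUnion (fun A => A ∩ S)).card ≤ S.card := by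
    refine Finset.card_le_card ?_
    intro x hx
    obtain ⟨A, _, hx2⟩ := mem_biUnion.1 hx
    exact (mem_inter.1 hx2).2
  have h3 : M.card * m ≤ ∑ A ∈ M, (A ∩ S).card := by
    have := Finset.card_nsmul_le_sum M (fun A => (A ∩ S).card) m h
    simpa [smul_eq_mul] using this
  omega

theorem low : S_LOW := by
  intro n k s hk hs
  refine ⟨?_, ?_, ?_⟩
  · obtain ⟨S, -, hS⟩ := Finset.exists_subset_card_eq (s := (univ : Finset (Fin n))) (n := s)
      (by simpa using hs)
    set F : Finset (Finset (Fin n)) := powersetCard k univ \ powersetCard k (univ \ S) with hF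
    have hcard : F.card = n.choose k - (n - s).choose k := by
      rw [hF, Finset.card_sdiff_of_subset (powersetCard_mono (subset_univ _)), card_powersetCard,
        card_powersetCard, Finset.card_sdiff_of_subset (subset_univ _), card_univ,
        Fintype.card_fin, hS]
    rw [← hcard]
    refine mem_le F ?_ ?_
    · intro A hA
      rw [hF, mem_sdiff] at hA
      exact (mem_powersetCard.1 hA.1).2
    · intro M hM hd
      have h := count M S 1 hd ?_
      · omega
      · intro A hA
        have h1 := hM hA
        rw [hF, mem_sdiff, mem_powersetCard, mem_powersetCard] at h1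
        obtain ⟨⟨-, h2⟩, h3⟩ := h1
        rw [Nat.one_le_iff_ne_zero]
        intro h0
        rw [Finset.card_eq_zero] at h0
        apply h3
        refine ⟨?_, h2⟩
        intro x hx
        rw [mem_sdiff]
        refine ⟨mem_univ _, fun hxS => ?_⟩
        have : x ∈ A ∩ S := mem_inter.2 ⟨hx, hxS⟩
        rw [h0] at this
        exact absurd this (Finset.notMem_empty x)
  · intro hn
    obtain ⟨T, -, hT⟩ := Finset.exists_subset_card_eq (s := (univ : Finset (Fin n)))
      (n := k * (s + 1) - 1) (by simpa using hn)
    have hcard : (powersetCard k T).card = (k * (s + 1) - 1).choose k := by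
      rw [card_powersetCard, hT]
    rw [← hcard]
    refine mem_le _ (fun A hA => (mem_powersetCard.1 hA).2) ?_
    intro M hM hd
    have h := count M T k hd ?_
    · rw [hT] at h
      by_contra hcon
      push Not at hcon
      have h1 : (s + 1) * k ≤ M.card * k := Nat.mul_le_mul_right k hcon
      have h2 : 0 < k * (s + 1) := by positivity
      have h3 : (s + 1) * k = k * (s + 1) := Nat.mul_comm _ _
      omega
    · intro A hA
      obtain ⟨h1, h2⟩ := mem_powersetCard.1 (hM hA)
      rw [Finset.inter_eq_left.2 h1, h2]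
  · intro B hB
    unfold mm
    refine csSup_le ⟨0, ∅, rfl, by simp, ?_⟩ ?_
    · intro M hM _
      rw [Finset.subset_empty.1 hM]
      simp
    · rintro c ⟨F, rfl, h1, h2⟩
      by_contra hcon
      push Not at hcon
      obtain ⟨M, hM, hMt, hMc⟩ := hB F h1 hcon
      have h3 := h2 M hM (fun A hA B' hB' hAB => hMt A hA B' hB' hAB)
      omega

end Pool.Agent.W804.SAM
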